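import Pool.Agent.Lib.MP_688fd0_co.SQ3.H94.Front

/-!
CTX for both types (port of `SQ2/H35/Ctx.lean`): the tree of the lines, cut into paths of length two. If the number of
lines is even, one line (not a cut vertex of the graph of the lines) is left out.
-/

set_option autoImplicit false

namespace Pool.Agent.Lib.MP_688fd0_co.SQ3.H94

open Pool.Agent.Lib.MP_688fd0_co.OSF Pool.Agent.Lib.MP_688fd0_co.SQ2

universe u

/-- A connected graph with at least two vertices has a vertex that can be removed. -/
theorem exists_noncut {V : Type u} [Fintype V] (E : V → V → Prop) (hs : ∀ x y, E x y → E y x)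
    (hc : ∀ ρ : V → V → Prop, Equivalence ρ → (∀ x y, E x y → ρ x y) → ∀ x y, ρ x y) (h2 : 2 ≤ Fintype.card V) :
    ∃ v : V, ∀ ρ : V → V → Prop, Equivalence ρ → (∀ x y, x ≠ v → y ≠ v → E x y → ρ x y) →
      ∀ x y, x ≠ v → y ≠ v → ρ x y := by
  classical
  have hne : Nonempty V := by
    rw [← Fintype.card_pos_iff]; omega
  obtain ⟨r⟩ := hne
  obtain ⟨par, h, hp⟩ := SQ2.TreeP.exists_parent E hs hc r
  have hgt : ∀ n, ∀ x, x ≠ r → h x ≤ n → h r < h x := by
    intro n
    induction n with
    | zero =>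
      intro x hx hn
      have := (hp x hx).2
      omega
    | succ n ih =>
      intro x hx hn
      have h1 := (hp x hx).2
      by_cases h3 : par x = r
      · rw [h3] at h1; omega
      · have := ih (par x) h3 (by omega)
        omega
  obtain ⟨v, -, hv⟩ := Finset.exists_max_image Finset.univ h ⟨r, Finset.mem_univ _⟩
  have hvr : r ≠ v := by
    rintro rfl
    obtain ⟨x, hx⟩ := Fintype.exists_ne_of_one_lt_card (by omega) r
    have h1 := hgt _ x hx le_rfl
    have h3 := hv x (Finset.mem_univ _)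
    omega
  have hpar : ∀ x, x ≠ r → par x ≠ v := by
    intro x hx h1
    have h3 := (hp x hx).2
    have h4 := hv x (Finset.mem_univ _)
    rw [h1] at h3
    omega
  refine ⟨v, fun ρ hρ hE => ?_⟩
  have hroot : ∀ n, ∀ x, x ≠ v → h x ≤ n → ρ x r := by
    intro n
    induction n with
    | zero =>
      intro x hx hn
      by_cases h1 : x = r
      · rw [h1]; exact hρ.refl _
      · have := (hp x h1).2
        omega
    | succ n ih =>
      intro x hx hn
      by_cases h1 : x = r
      · rw [h1]; exact hρ.refl _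
      · have h3 := (hp x h1).2
        exact hρ.trans (hE _ _ hx (hpar x h1) (hp x h1).1) (ih (par x) (hpar x h1) (by omega))
  intro x y hx hy
  exact hρ.trans (hroot _ x hx le_rfl) (hρ.symm (hroot _ y hy le_rfl))

/-- The class of the lines: at most one line is left out, the others are connected and their number is odd. -/
theorem exists_class {V : Type u} [Fintype V] (E : V → V → Prop) (hs : ∀ x y, E x y → E y x)
    (hc : ∀ ρ : V → V → Prop, Equivalence ρ → (∀ x y, E x y → ρ x y) → ∀ x y, ρ x y) (h3 : 3 ≤ Fintype.card V) :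
    ∃ κ : V → Bool, (∀ p q, κ p = true → κ q = true → p = q) ∧ Odd (Nat.card {p // κ p = false}) ∧
      3 ≤ Nat.card {p // κ p = false} ∧
      ∀ ρ : {p // κ p = false} → {p // κ p = false} → Prop, Equivalence ρ → (∀ x y, E x.1 y.1 → ρ x y) →
        ∀ x y, ρ x y := by
  classical
  rcases Nat.even_or_odd (Fintype.card V) with he | ho
  · obtain ⟨v, hv⟩ := exists_noncut E hs hc (by omega)
    have hcard : Nat.card {p // decide (p = v) = false} = Fintype.card V - 1 := by
      have e : Nat.card {p // decide (p = v) = false} = Nat.card {p // p ≠ v} :=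
        Nat.card_congr (Equiv.subtypeEquivRight fun p => by simp)
      rw [e, Nat.card_eq_fintype_card, Fintype.card_subtype_compl, Fintype.card_subtype_eq]
    refine ⟨fun p => decide (p = v), fun p q hp hq => ?_, ?_, ?_, ?_⟩
    · rw [of_decide_eq_true hp, of_decide_eq_true hq]
    · rw [hcard]
      obtain ⟨n, hn⟩ := he
      exact ⟨n - 1, by omega⟩
    · rw [hcard]
      obtain ⟨n, hn⟩ := he
      omega
    · intro ρ hρ hE x y
      have hx : x.1 ≠ v := of_decide_eq_false x.2
      have hy : y.1 ≠ v := of_decide_eq_false y.2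
      have h1 := hv (fun p q => p = q ∨ ∃ (hp : decide (p = v) = false) (hq : decide (q = v) = false),
        ρ ⟨p, hp⟩ ⟨q, hq⟩) ⟨fun p => Or.inl rfl, by
          rintro p q (h | ⟨hp, hq, h⟩)
          · exact Or.inl h.symm
          · exact Or.inr ⟨hq, hp, hρ.symm h⟩, by
          rintro p q r (rfl | ⟨hp, hq, h⟩) (rfl | ⟨hq', hr, h'⟩)
          · exact Or.inl rfl
          · exact Or.inr ⟨hq', hr, h'⟩
          · exact Or.inr ⟨hp, hq, h⟩
          · exact Or.inr ⟨hp, hr, hρ.trans h h'⟩⟩
        (fun p q hp hq h => Or.inr ⟨decide_eq_false hp, decide_eq_false hq, hE _ _ h⟩) x.1 y.1 hx hy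
      rcases h1 with h1 | ⟨hp, hq, h⟩
      · have : x = y := Subtype.ext h1
        rw [this]; exact hρ.refl _
      · exact h
  · have hcard : Nat.card {p : V // (fun _ : V => false) p = false} = Fintype.card V := by
      rw [← Nat.card_eq_fintype_card]
      exact Nat.card_congr (Equiv.subtypeUnivEquiv fun p => rfl)
    refine ⟨fun _ => false, fun p q hp hq => ?_, ?_, ?_, ?_⟩
    · exact absurd hp (by simp)
    · rw [hcard]; exact ho
    · rw [hcard]; exact h3
    · intro ρ hρ hE x y
      exact hc (fun p q => ρ ⟨p, rfl⟩ ⟨q, rfl⟩) ⟨fun p => hρ.refl _, fun h => hρ.symm h, fun h h' => hρ.trans h h'⟩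
        (fun p q h => hE _ _ h) x.1 y.1

theorem ctx : CtxS := by
  intro Q _ B a eps D z k H hthree c W hsink hsep hlev hW
  classical
  have hfin : Finite Q := H.fin
  have hn : D.Normal := H.nrm
  have hk : 0 < k := H.kpos
  let A := B.q a
  let Λ := Q ⧸ Subgroup.zpowers A
  let ln : Q → Λ := fun y => (y : Q ⧸ Subgroup.zpowers A)
  have hlnU : ∀ (t : ℤ) (x : Q), ln ((H.up.U ^ t) x) = ln x := fun t x => H.ln_U t x
  have hln : ∀ x y : Q, ln x = ln y → ∃ t : ℤ, y = (H.up.U ^ t) x := by
    intro x y h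
    obtain ⟨m, hm⟩ := H.ln_eq h
    exact ⟨m, by rw [zpow_natCast]; exact hm⟩
  cases nonempty_fintype Λ
  let E : Λ → Λ → Prop := fun p q => p ≠ q ∧ ∃ (y : Q) (b : B.L), ln y = p ∧ ln (y * B.q b) = q
  have hEs : ∀ p q, E p q → E q p := by
    rintro p q ⟨hne, y, b, rfl, rfl⟩
    exact ⟨hne.symm, y * B.q b, B.inv b, rfl, by rw [B.q_inv, mul_inv_cancel_right]⟩
  have hEc : ∀ ρ : Λ → Λ → Prop, Equivalence ρ → (∀ x y, E x y → ρ x y) → ∀ x y, ρ x y := by
    intro ρ hρ hE
    have hstep : ∀ (y : Q) (b : B.L), ρ (ln y) (ln (y * B.q b)) := by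
      intro y b
      by_cases h : ln y = ln (y * B.q b)
      · rw [← h]; exact hρ.refl _
      · exact hE _ _ ⟨h, y, b, rfl, rfl⟩
    have hall : ∀ g : Q, ∀ y : Q, ρ (ln y) (ln (y * g)) := by
      intro g
      have hg : g ∈ Subgroup.closure (Set.range B.q) := by rw [H.gen]; trivial
      induction hg using Subgroup.closure_induction with
      | mem g hg =>
        obtain ⟨b, rfl⟩ := hg
        intro y; exact hstep y b
      | one => intro y; rw [mul_one]; exact hρ.refl _
      | mul g g' _ _ h h' => intro y; rw [← mul_assoc]; exact hρ.trans (h y) (h' _)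
      | inv g _ h =>
        intro y
        have := h (y * g⁻¹)
        rw [inv_mul_cancel_right] at this
        exact hρ.symm this
    intro p q
    obtain ⟨y, rfl⟩ := QuotientGroup.mk_surjective p
    obtain ⟨y', rfl⟩ := QuotientGroup.mk_surjective q
    have := hall (y⁻¹ * y') y
    rw [mul_inv_cancel_left] at this
    exact this
  have h3 : 3 ≤ Fintype.card Λ := by
    rw [← Nat.card_eq_fintype_card]; exact hthree
  obtain ⟨κ, hκ1, hκodd, hκ3, hκc⟩ := exists_class E hEs hEc h3
  let Λ' := {p : Λ // κ p = false}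
  obtain ⟨dd, N, cc, ll, mm, rk, hT, hE, hd⟩ := tree Λ' (fun p q => E p.1 q.1) (fun p q h => hEs _ _ h)
    (fun p hp => hp.1 rfl) hκc (by rw [← Nat.card_eq_fintype_card]; exact hκodd)
  -- choice of `x`, `b₁`, `j`, `b₂`
  have hch : ∀ i : Fin N, ∃ (x : Q) (b₁ b₂ : B.L) (j : ℕ), j < k ∧ ln x = (cc i).1 ∧ ln (x * B.q b₁) = (ll i).1 ∧
      ln ((H.up.U ^ j) x * B.q b₂) = (mm i).1 := by
    intro i
    obtain ⟨⟨_, y, b₁, h1, h2⟩, ⟨_, y', b₂, h3, h4⟩⟩ := hE i
    obtain ⟨t, ht⟩ := hln y y' (h1.trans h3.symm)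
    refine ⟨y, b₁, b₂, (t % (k : ℤ)).toNat, ?_, h1, h2, ?_⟩
    · have h5 := Int.emod_lt_of_pos t (show (0 : ℤ) < k by exact_mod_cast hk)
      have h6 := Int.emod_nonneg t (show (k : ℤ) ≠ 0 by exact_mod_cast hk.ne')
      omega
    · have h6 := Int.emod_nonneg t (show (k : ℤ) ≠ 0 by exact_mod_cast hk.ne')
      have e1 : (H.up.U ^ t) y = (H.up.U ^ ((k : ℤ) * (t / k))) ((H.up.U ^ (t % (k : ℤ)).toNat) y) := by
        have e2 : (H.up.U ^ (t % (k : ℤ)).toNat) y = (H.up.U ^ (t % (k : ℤ))) y := by
          rw [← zpow_natCast, Int.toNat_of_nonneg h6]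
        rw [e2, ← U_zpow_add, Int.emod_add_mul_ediv]
      rw [← h4, ht, e1, H.U_kz, mul_assoc, ← H.U_kz, hlnU]
  choose x b₁ b₂ j hj hx hl hm using hch
  have hWc : 2 * c ≤ W := by omega
  have hfr := fun i => one_front H c W hsep hWc (x i)
  choose F hF1 hF2 hF3 hF4 hF5 using hfr
  have hdc : ∀ i, dd (ll i) = !dd (cc i) ∧ dd (mm i) = !dd (cc i) := hd
  have hκx : ∀ i, κ (ln (x i)) = false := fun i => by rw [hx]; exact (cc i).2
  have hκl : ∀ i, κ (ln (x i * B.q (b₁ i))) = false := fun i => by rw [hl]; exact (ll i).2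
  have hκm : ∀ i, κ (ln ((H.up.U ^ j i) (x i) * B.q (b₂ i))) = false := fun i => by rw [hm]; exact (mm i).2
  -- the colours
  let de : Λ → Bool := fun p => if h : κ p = false then dd ⟨p, h⟩ else false
  have hde : ∀ p : Λ', de p.1 = dd p := fun p => by
    show (if h : κ p.1 = false then dd ⟨p.1, h⟩ else false) = _
    rw [dif_pos p.2]
  -- `N > 0`
  have hN : 0 < N := by
    rcases Nat.eq_zero_or_pos N with h0 | h0
    · exfalso
      subst h0
      have h1 : ∀ p q : Λ', p = q := hT.cov (fun p q => p = q)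
        ⟨fun _ => rfl, fun h => h.symm, fun h h' => h.trans h'⟩ (fun i => i.elim0)
      have h2 : Nat.card Λ' ≤ 1 := by
        have : Subsingleton Λ' := ⟨h1⟩
        exact Finite.card_le_one_iff_subsingleton.2 this
      have h4 : 3 ≤ Nat.card Λ' := hκ3
      omega
    · exact h0
  -- all lines occur
  have hcov : ∀ q : Λ', ∃ i, q = cc i ∨ q = ll i ∨ q = mm i := by
    intro q
    let U : Λ' → Prop := fun q => ∃ i, q = cc i ∨ q = ll i ∨ q = mm i
    have h := hT.cov (fun p q => p = q ∨ (U p ∧ U q))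
      ⟨fun _ => Or.inl rfl, fun h => h.elim (fun h => Or.inl h.symm) (fun h => Or.inr ⟨h.2, h.1⟩), by
        intro p q r h h'
        rcases h with rfl | h
        · exact h'
        · rcases h' with rfl | h'
          · exact Or.inr h
          · exact Or.inr ⟨h.1, h'.2⟩⟩
      (fun i => ⟨Or.inr ⟨⟨i, Or.inl rfl⟩, ⟨i, Or.inr (Or.inl rfl)⟩⟩,
        Or.inr ⟨⟨i, Or.inl rfl⟩, ⟨i, Or.inr (Or.inr rfl)⟩⟩⟩) q (cc ⟨0, hN⟩)
    rcases h with h | h
    · exact ⟨⟨0, hN⟩, Or.inl h⟩
    · exact h.1
  refine ⟨fun y => de (ln y), fun y => κ (ln y), N, x, b₁, b₂, j, F, rk, ?_, hN, ?_⟩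
  · exact
      { sink := hsink
        sep := hsep
        lev := hlev
        three := hthree
        d_line := fun y => by
          show de (ln (H.up.U y)) = de (ln y)
          have := hlnU 1 y
          rw [zpow_one] at this
          rw [this]
        c_line := fun y => by
          show κ (ln (H.up.U y)) = κ (ln y)
          have := hlnU 1 y
          rw [zpow_one] at this
          rw [this]
        one := fun y y' h h' => hln y y' (hκ1 _ _ h h')
        oddc := by
          refine ⟨Nat.card Λ', hκodd, ?_⟩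
          have e := Nat.card_congr (QuotientGroup.preimageMkEquivSubgroupProdSet (Subgroup.zpowers A)
            {p : Λ | κ p = false})
          rw [Nat.card_prod, Nat.card_zpowers, mul_comm] at e
          exact e
        d₁ := fun i => by
          show de (ln (x i * B.q (b₁ i))) = !de (ln (x i))
          rw [hl, hx, hde, hde]; exact (hdc i).1
        d₂ := fun i => by
          show de (ln ((H.up.U ^ j i) (x i) * B.q (b₂ i))) = !de (ln (x i))
          rw [hm, hx, hde, hde]; exact (hdc i).2
        c₀ := hκx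
        c₁ := hκl
        c₂ := hκm
        j_lt := hj
        ne := fun i t h => by
          refine hT.lm i (Subtype.ext ?_)
          rw [← hl, ← hm, ← h, hlnU]
        cov := fun y hy => by
          obtain ⟨i, h⟩ := hcov ⟨ln y, hy⟩
          rcases h with h | h | h
          · have h' : ln y = (cc i).1 := congrArg Subtype.val h
            rw [← hx] at h'
            obtain ⟨t, ht⟩ := hln _ _ h'.symm
            exact ⟨i, t, Or.inl ht⟩
          · have h' : ln y = (ll i).1 := congrArg Subtype.val h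
            rw [← hl] at h'
            obtain ⟨t, ht⟩ := hln _ _ h'.symm
            exact ⟨i, t, Or.inr (Or.inl ht)⟩
          · have h' : ln y = (mm i).1 := congrArg Subtype.val h
            rw [← hm] at h'
            obtain ⟨t, ht⟩ := hln _ _ h'.symm
            exact ⟨i, t, Or.inr (Or.inr ht)⟩
        fr := hF1
        fx := hF2
        fsh := hF3
        fsub := hF4
        fcard := hF5 }
  · exact
      { cl := fun i => by
          show ln (x i) ≠ ln (x i * B.q (b₁ i))
          rw [hx, hl]; exact fun h => hT.cl i (Subtype.ext h)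
        cm := fun i => by
          show ln (x i) ≠ ln ((H.up.U ^ j i) (x i) * B.q (b₂ i))
          rw [hx, hm]; exact fun h => hT.cm i (Subtype.ext h)
        lm := fun i => by
          show ln (x i * B.q (b₁ i)) ≠ ln ((H.up.U ^ j i) (x i) * B.q (b₂ i))
          rw [hl, hm]; exact fun h => hT.lm i (Subtype.ext h)
        kl := fun i => by
          show κ (ln (x i * B.q (b₁ i))) = κ (ln (x i))
          rw [hκl, hκx]
        km := fun i => by
          show κ (ln ((H.up.U ^ j i) (x i) * B.q (b₂ i))) = κ (ln (x i))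
          rw [hκm, hκx]
        two := fun i => by
          obtain ⟨p, h1, h2⟩ := hT.two i
          refine ⟨fun y => ∃ h : κ (ln y) = false, p ⟨ln y, h⟩, ?_, ?_⟩
          · have e1 : (⟨ln (x i), hκx i⟩ : Λ') = cc i := Subtype.ext (hx i)
            have e2 : (⟨ln (x i * B.q (b₁ i)), hκl i⟩ : Λ') = ll i := Subtype.ext (hl i)
            have e3 : (⟨ln ((H.up.U ^ j i) (x i) * B.q (b₂ i)), hκm i⟩ : Λ') = mm i := Subtype.ext (hm i)
            rcases h1 with ⟨h3, h4⟩ | ⟨h3, h4⟩ | ⟨h3, h4⟩
            · exact Or.inl ⟨⟨hκx i, e1.symm ▸ h3⟩, ⟨hκl i, e2.symm ▸ h4⟩⟩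
            · exact Or.inr (Or.inl ⟨⟨hκx i, e1.symm ▸ h3⟩, ⟨hκm i, e3.symm ▸ h4⟩⟩)
            · exact Or.inr (Or.inr ⟨⟨hκl i, e2.symm ▸ h3⟩, ⟨hκm i, e3.symm ▸ h4⟩⟩)
          · rintro y ⟨hy, hpy⟩ i' hi' h
            refine h2 ⟨ln y, hy⟩ hpy i' hi' ?_
            rcases h with h | h | h
            · exact Or.inl (Subtype.ext (Eq.trans h (hx i')))
            · exact Or.inr (Or.inl (Subtype.ext (Eq.trans h (hl i'))))
            · exact Or.inr (Or.inr (Subtype.ext (Eq.trans h (hm i'))))
        cov := fun ρ hρ h p q hpq => by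
          have hpq' : κ (ln p) = κ (ln q) := hpq
          rcases Bool.eq_false_or_eq_true (κ (ln p)) with h1 | h1
          · have h2 : ln p = ln q := hκ1 _ _ h1 (hpq' ▸ h1)
            show ρ (ln p) (ln q)
            rw [h2]; exact hρ.refl _
          · have h2 : κ (ln q) = false := hpq' ▸ h1
            exact hT.cov (fun p q => ρ p.1 q.1) ⟨fun _ => hρ.refl _, fun h => hρ.symm h,
              fun h h' => hρ.trans h h'⟩ (fun i => by
                have := h i
                rw [← hx, ← hl, ← hm]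
                exact this) ⟨ln p, h1⟩ ⟨ln q, h2⟩ }

end Pool.Agent.Lib.MP_688fd0_co.SQ3.H94
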