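import Pool.Agent.Lib.MP_688fd0_co.SQ3.Iface
import Pool.Agent.Lib.MP_688fd0_co.SQ2.H9.Dstr

/-!
Row DSTR-E of board `sqe_modules` (port of `SQ2/H9/Dstr.lean`): the quotient by `C₁ = C ⊓ Ecl eps a`.

Let `M` be the image of `N` in `Q = G / C₁` and `K` a complement of `M`. The image of `a` centralises `M`, because
`[n, a]` lies in `C` and in `Ecl eps a` (`eps n = eps a = 1`). So `a = z δ` with `z ∈ M` and `δ ∈ D = C_K(M)`, and `D`
is normal; `eps = 1` on `D`, because `P` divides the order of `M`. The element `x z x⁻¹ z ^ (- eps x)` lies in the image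
of `C`; it lies in the image of `Ecl eps a` too, because `x a x⁻¹ a ^ (- eps x)` is its product with an element of `D`.
-/

set_option autoImplicit false

namespace Pool.Agent.Lib.MP_688fd0_co.SQ3.H94

open Pool.Agent.Lib.MP_688fd0_co.OSF Pool.Agent.Lib.MP_688fd0_co.SQ2

theorem dstr : DstrS := by
  intro G _ _ N C eps k P h a C₁ hC₁n hC₁ hea
  have := h.Nn
  have := h.Cn
  have := h.Nc
  have hC₁C : C₁ ≤ C := hC₁ ▸ inf_le_left
  have hC₁E : C₁ ≤ Ecl eps a := hC₁ ▸ inf_le_right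
  have hNcomm : ∀ x ∈ N, ∀ y ∈ N, x * y = y * x := SQ2.H41.comm_of_cyclic N h.Nc
  set π := QuotientGroup.mk' C₁ with hπ
  have hsurj : Function.Surjective π := QuotientGroup.mk'_surjective C₁
  have hker : ∀ x, π x = 1 ↔ x ∈ C₁ := fun x => QuotientGroup.eq_one_iff x
  set M : Subgroup (G ⧸ C₁) := N.map π with hM
  have : M.Normal := h.Nn.map π hsurj
  have hMc : ∀ x ∈ M, ∀ y ∈ M, x * y = y * x := by
    rintro _ ⟨x, hx, rfl⟩ _ ⟨y, hy, rfl⟩
    rw [← map_mul, ← map_mul, hNcomm x hx y hy]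
  have hMk : M.index = k := by
    rw [hM, Subgroup.index_map, QuotientGroup.ker_mk', sup_of_le_left (hC₁C.trans h.CN),
      MonoidHom.range_eq_top.2 hsurj, Subgroup.index_top, mul_one, h.idx]
  have hMd : Nat.card M ∣ Nat.card N := Subgroup.card_map_dvd N π
  have hMcop : (Nat.card M).Coprime k := h.cop.coprime_dvd_left hMd
  obtain ⟨K, hK⟩ := Subgroup.exists_right_complement'_of_coprime (N := M) (by rw [hMk]; exact hMcop)
  have hKk : Nat.card K = k := by rw [← hK.symm.index_eq_card, hMk]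
  have hdec : ∀ x, ∃ n ∈ M, ∃ κ ∈ K, n * κ = x := fun x => by
    obtain ⟨⟨n, κ⟩, h⟩ := hK.2 x
    exact ⟨n, n.2, κ, κ.2, h⟩
  set D : Subgroup (G ⧸ C₁) := K ⊓ Subgroup.centralizer M with hD
  have hDk : Nat.card D ∣ k := hKk ▸ Subgroup.card_dvd_of_le inf_le_left
  have hDM : ∀ d ∈ D, ∀ n ∈ M, n * d = d * n := fun d hd n hn =>
    Subgroup.mem_centralizer_iff.1 hd.2 n hn
  have hDn : D.Normal := by
    refine ⟨fun d hd g => ?_⟩
    obtain ⟨n, hn, κ, hκ, rfl⟩ := hdec g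
    have h1 : κ * d * κ⁻¹ ∈ D := ⟨K.mul_mem (K.mul_mem hκ hd.1) (K.inv_mem hκ),
      (Subgroup.normal_centralizer (H := M)).conj_mem d hd.2 κ⟩
    have h2 := hDM _ h1 n hn
    have h3 : n * κ * d * (n * κ)⁻¹ = κ * d * κ⁻¹ := by
      have h4 : n * κ * d * (n * κ)⁻¹ = n * (κ * d * κ⁻¹) * n⁻¹ := by group
      rw [h4, h2, mul_inv_cancel_right]
    rw [h3]
    exact h1
  have hAM : ∀ n ∈ M, n * π a = π a * n := by
    rintro _ ⟨n, hn, rfl⟩
    have h1 : n * a * n⁻¹ * a⁻¹ ∈ C₁ := by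
      rw [hC₁]
      refine ⟨?_, Subgroup.subset_normalClosure ⟨n, ?_⟩⟩
      · have h2 := C.inv_mem (h.act n hn a)
        rw [hea, Units.val_one, zpow_one] at h2
        have h3 : (a * n * a⁻¹ * n⁻¹)⁻¹ = n * a * n⁻¹ * a⁻¹ := by group
        rwa [h3] at h2
      · rw [h.eN n hn, Units.val_one, zpow_one]
    have h2 := (hker _).2 h1
    rw [map_mul, map_mul, map_mul, map_inv, map_inv] at h2
    exact mul_inv_eq_iff_eq_mul.1 (mul_inv_eq_one.1 h2)
  obtain ⟨z, hz, δ, hδ, hzδ⟩ := hdec (π a)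
  obtain ⟨u, hu, huz⟩ := hz
  have hz' : z ∈ M := ⟨u, hu, huz⟩
  have hδe : δ = z⁻¹ * π a := by rw [← hzδ, inv_mul_cancel_left]
  have hδD : δ ∈ D := by
    refine ⟨hδ, Subgroup.mem_centralizer_iff.2 fun n hn => ?_⟩
    rw [hδe]
    have h1 : n * z⁻¹ = z⁻¹ * n := hMc n hn _ (M.inv_mem hz')
    rw [← mul_assoc, h1, mul_assoc, hAM n hn, mul_assoc]
  -- the image of `Ecl eps a` meets the image of `C` trivially
  have hEC : ∀ x, x ∈ (Ecl eps a).map π → x ∈ C.map π → x = 1 := by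
    rintro _ ⟨x, hx, rfl⟩ ⟨y, hy, hxy⟩
    have h1 : y⁻¹ * x ∈ C₁ := by
      rw [← hker, map_mul, map_inv, hxy, inv_mul_cancel]
    have h2 : x ∈ C := by
      have := C.mul_mem hy (hC₁C h1)
      rwa [mul_inv_cancel_left] at this
    exact (hker x).2 (hC₁ ▸ ⟨h2, hx⟩)
  -- the character
  have hC₁k : ∀ g ∈ C₁, eps g = 1 := fun g hg => h.eN g (h.CN (hC₁C hg))
  have heps' : ∀ g, QuotientGroup.lift C₁ eps hC₁k (π g) = eps g := fun g => rfl
  refine ⟨D, z, u, QuotientGroup.lift C₁ eps hC₁k, hDn, hDk, heps', ?_, ?_, hδe ▸ hδD, hu, huz⟩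
  · -- `eps = 1` on `D`
    intro d hd
    obtain ⟨g, rfl⟩ := hsurj d
    rw [MonoidHom.mem_ker, heps']
    by_contra hne
    have he : eps g = -1 := (Int.units_eq_one_or (eps g)).resolve_left hne
    have : Fact P.Prime := ⟨h.prime⟩
    obtain ⟨y, hy⟩ := exists_prime_orderOf_dvd_card' (G := N) P h.dvd
    have hyP : orderOf (y : G) = P := by rw [Subgroup.orderOf_coe, hy]
    have h1 : g * y * g⁻¹ * (y : G) ∈ C := by
      have h2 := h.act y y.2 g
      rw [he, Units.val_neg, Units.val_one, zpow_neg_one, inv_inv] at h2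
      exact h2
    have h3 : g * y * g⁻¹ * (y : G)⁻¹ ∈ C := by
      apply hC₁C
      rw [← hker, map_mul, map_mul, map_mul, map_inv, map_inv]
      have h4 := hDM _ hd (π y) ⟨y, y.2, rfl⟩
      rw [← h4]
      group
    have h5 : (y : G) ^ 2 ∈ C := by
      have h6 := C.mul_mem (C.inv_mem h3) h1
      have h7 : (g * y * g⁻¹ * (y : G)⁻¹)⁻¹ * (g * y * g⁻¹ * (y : G)) = (y : G) ^ 2 := by
        rw [pow_two]; group
      rwa [h7] at h6
    have hk0 : 0 < k := by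
      rw [← h.idx]; exact Nat.pos_of_ne_zero N.index_ne_zero_of_finite
    have hPbig : 4 * k < P := (h.big P (Nat.mem_primeFactors.2 ⟨h.prime, h.dvd, Nat.card_pos.ne'⟩)).1
    have hcop : P.Coprime 2 := (Nat.coprime_primes h.prime Nat.prime_two).2 (by omega)
    have h8 : (y : G) ∈ C := by
      obtain ⟨t, ht⟩ := exists_pow_eq_self_of_coprime (x := (y : G)) (n := 2) (by rw [hyP]; exact hcop.symm)
      rw [← ht]
      exact C.pow_mem h5 t
    refine h.ndvd ?_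
    rw [← hyP, ← Subgroup.orderOf_mk (y : G) h8]
    exact orderOf_dvd_natCard _
  · intro x
    obtain ⟨g, rfl⟩ := hsurj x
    rw [heps']
    obtain ⟨e, he⟩ : ∃ e : ℤ, e = ((eps g : ℤˣ) : ℤ) := ⟨_, rfl⟩
    rw [← he]
    obtain ⟨x, hx⟩ : ∃ x, x = π g := ⟨_, rfl⟩
    rw [← hx]
    have h1 : x * z * x⁻¹ * (z ^ e)⁻¹ ∈ C.map π := by
      refine ⟨g * u * g⁻¹ * (u ^ e)⁻¹, he ▸ h.act u hu g, ?_⟩
      rw [map_mul, map_mul, map_mul, map_inv, map_inv, map_zpow, huz, hx]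
    have h2 : x * π a * x⁻¹ * (π a ^ e)⁻¹ ∈ (Ecl eps a).map π := by
      refine ⟨g * a * g⁻¹ * (a ^ e)⁻¹, Subgroup.subset_normalClosure ⟨g, by rw [he]⟩, ?_⟩
      rw [map_mul, map_mul, map_mul, map_inv, map_inv, map_zpow, hx]
    set d'' := x * δ * x⁻¹ * (δ ^ e)⁻¹ with hd''
    have hd''D : d'' ∈ D := D.mul_mem (hDn.conj_mem δ hδD x) (D.inv_mem (D.zpow_mem hδD e))
    have hcM : x * z * x⁻¹ * (z ^ e)⁻¹ ∈ M := Subgroup.map_mono h.CN h1
    have h3 : x * z * x⁻¹ * (z ^ e)⁻¹ * d'' ∈ (Ecl eps a).map π := by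
      have hzc : Commute z δ := hDM δ hδD z hz'
      have h4 : x * π a * x⁻¹ * (π a ^ e)⁻¹ = x * z * x⁻¹ * (z ^ e)⁻¹ * d'' := by
        have h5 : (z ^ e)⁻¹ * d'' = d'' * (z ^ e)⁻¹ := hDM d'' hd''D _ (M.inv_mem (M.zpow_mem hz' e))
        rw [← hzδ, hzc.mul_zpow, mul_inv_rev, mul_assoc (x * z * x⁻¹), h5, hd'']
        generalize z ^ e = z', δ ^ e = δ'
        group
      rw [← h4]
      exact h2
    have h8 : d'' ^ k = 1 := by
      obtain ⟨t, ht⟩ := hDk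
      have h9 : (⟨d'', hd''D⟩ : D) ^ Nat.card D = 1 := pow_card_eq_one'
      have h10 : d'' ^ Nat.card D = 1 := congrArg Subtype.val h9
      rw [ht, pow_mul, h10, one_pow]
    have h11 : (x * z * x⁻¹ * (z ^ e)⁻¹) ^ Nat.card M = 1 := by
      have h9 : (⟨_, hcM⟩ : M) ^ Nat.card M = 1 := pow_card_eq_one'
      exact congrArg Subtype.val h9
    have h12 := SQ2.H9.mem_of_mul (hDM d'' hd''D _ hcM) h3 h8 h11 hMcop
    have h13 := hEC _ h12 h1
    exact mul_inv_eq_one.1 h13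

end Pool.Agent.Lib.MP_688fd0_co.SQ3.H94
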