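import Pool.Agent.Lib.MP_688fd0_co.SQ3.H23.HeartA
import Pool.Agent.Lib.MP_688fd0_co.SQ2.H35.Ctx

/-!
FRONT for both types (port of `SQ2/H35/Front.lean`): the choice of the sheets of a frontier.
-/

set_option autoImplicit false

namespace Pool.Agent.Lib.MP_688fd0_co.SQ3.H94

open Pool.Agent.Lib.MP_688fd0_co.OSF Pool.Agent.Lib.MP_688fd0_co.SQ2

universe u

/-- Representatives: `r j x y` means that `y` is `j` levels above `x`. -/
theorem reps {S : Type u} (r : ℤ → S → S → Prop) (h0 : ∀ x, r 0 x x) (hs : ∀ j x y, r j x y → r (-j) y x)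
    (ht : ∀ i j x y z, r i x y → r j y z → r (i + j) x z) (M : Finset S) (w₀ : S) (hw₀ : w₀ ∈ M) (c W : ℕ)
    (hcW : 2 * c ≤ W)
    (hM : ∀ w ∈ M, ∀ w' ∈ M, ∀ j : ℤ, (c : ℤ) < |j| → |j| ≤ W → ¬ r j w w') :
    ∃ R : Finset S, R ⊆ M ∧ w₀ ∈ R ∧ (∀ w ∈ M, ∃ x ∈ R, ∃ j : ℤ, |j| ≤ c ∧ r j w x) ∧
      ∀ x ∈ R, ∀ y ∈ R, ∀ j : ℤ, |j| ≤ W → r j x y → j = 0 := by
  classical
  -- no small period
  have hord : ∀ x ∈ M, ∀ j : ℤ, |j| ≤ W → r j x x → j = 0 := by
    intro x hx j hj h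
    by_contra hne
    rcases lt_or_ge (c : ℤ) |j| with h1 | h1
    · exact hM x hx x hx j h1 hj h
    · have hpow : ∀ n : ℕ, r (n * j) x x := by
        intro n
        induction n with
        | zero => simpa using h0 x
        | succ n ih =>
          have := ht _ _ _ _ _ ih h
          have e : ((n + 1 : ℕ) : ℤ) * j = n * j + j := by push_cast; ring
          rw [e]; exact this
      have hpos : 0 < j.natAbs := Int.natAbs_pos.2 hne
      have h2 : c / j.natAbs * j.natAbs ≤ c := Nat.div_mul_le_self _ _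
      have h3 : c < (c / j.natAbs + 1) * j.natAbs := Nat.lt_mul_of_div_lt (Nat.lt_succ_self _) hpos
      have h4 : |((c / j.natAbs + 1 : ℕ) : ℤ) * j| = (((c / j.natAbs + 1) * j.natAbs : ℕ) : ℤ) := by
        rw [abs_mul, Nat.abs_cast, Int.abs_eq_natAbs]; push_cast; ring
      have h5 : (c / j.natAbs + 1) * j.natAbs = c / j.natAbs * j.natAbs + j.natAbs := by ring
      rw [Int.abs_eq_natAbs] at h1
      refine hM x hx x hx (((c / j.natAbs + 1 : ℕ) : ℤ) * j) (by rw [h4]; exact_mod_cast h3) ?_ (hpow _)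
      rw [h4]
      have h6 : (c / j.natAbs + 1) * j.natAbs ≤ W := by omega
      exact_mod_cast h6
  -- a maximal system
  let G : Finset (Finset S) :=
    M.powerset.filter (fun R => w₀ ∈ R ∧ ∀ x ∈ R, ∀ y ∈ R, (∃ j : ℤ, |j| ≤ c ∧ r j x y) → x = y)
  have hG : ({w₀} : Finset S) ∈ G := by
    refine Finset.mem_filter.2 ⟨Finset.mem_powerset.2 (Finset.singleton_subset_iff.2 hw₀),
      Finset.mem_singleton_self _, ?_⟩
    intro x hx y hy _
    rw [Finset.mem_singleton.1 hx, Finset.mem_singleton.1 hy]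
  obtain ⟨R, hRG, hmax⟩ := Finset.exists_max_image G Finset.card ⟨_, hG⟩
  obtain ⟨hRM, hR0, hRr⟩ := Finset.mem_filter.1 hRG
  rw [Finset.mem_powerset] at hRM
  refine ⟨R, hRM, hR0, ?_, ?_⟩
  · intro w hw
    by_cases hwR : w ∈ R
    · exact ⟨w, hwR, 0, by simp, h0 w⟩
    · by_contra hno
      push Not at hno
      have hin : insert w R ∈ G := by
        refine Finset.mem_filter.2 ⟨Finset.mem_powerset.2 (Finset.insert_subset hw hRM),
          Finset.mem_insert_of_mem hR0, ?_⟩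
        rintro x hx y hy ⟨j, hj, hxy⟩
        rcases Finset.mem_insert.1 hx with hx1 | hx1
        · rcases Finset.mem_insert.1 hy with hy1 | hy1
          · rw [hx1, hy1]
          · exact absurd (hx1 ▸ hxy) (hno y hy1 j hj)
        · rcases Finset.mem_insert.1 hy with hy1 | hy1
          · exact absurd (hy1 ▸ hs _ _ _ hxy) (hno x hx1 (-j) (by rw [abs_neg]; exact hj))
          · exact hRr x hx1 y hy1 ⟨j, hj, hxy⟩
      have := hmax _ hin
      rw [Finset.card_insert_of_notMem hwR] at this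
      omega
  · intro x hx y hy j hj hxy
    rcases lt_or_ge (c : ℤ) |j| with h1 | h1
    · exact absurd hxy (hM x (hRM hx) y (hRM hy) j h1 hj)
    · have h2 := hRr x hx y hy ⟨j, h1, hxy⟩
      subst h2
      exact hord x (hRM hx) j hj hxy

section

variable {Q : Type} [Group Q] {B : Lb.{0, 0} Q} {a : B.L} {eps : Q →* ℤˣ} {D : Subgroup Q} {z : Q} {k : ℕ}

theorem U_zpow_add (H : Hyp B a eps D z k) (i j : ℤ) (x : Q) :
    (H.up.U ^ (i + j)) x = (H.up.U ^ j) ((H.up.U ^ i) x) := by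
  rw [add_comm, zpow_add]; rfl

/-- One frontier. -/
theorem one_front (H : Hyp B a eps D z k) (c W : ℕ) (hsep : Sep B a D c W) (hW : 2 * c ≤ W) (x : Q) :
    ∃ F : Finset Q, Fr H.up D W F ∧ x ∈ F ∧
      (∀ l : List B.L, l.length ≤ 4 → ∃ o : ℤ, |o| ≤ c ∧ (H.up.U ^ o) (B.fin x l) ∈ F) ∧
      (∀ s ∈ F, ∃ l : List B.L, l.length ≤ 4 ∧ ∃ o : ℤ, ((H.up.U ^ o) (B.fin x l))⁻¹ * s ∈ D) ∧
      F.card ≤ (Nat.card B.L + 2) ^ 4 * k := by
  classical
  have hfin : Finite Q := H.fin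
  have hfL : Finite B.L := H.finL
  have hdat := H.dat
  obtain ⟨S, hS, hc⟩ := SQ2.H35.exists_words (B := B) 4
  obtain ⟨R, hRM, hR0, hRc, hRd⟩ := reps (fun (j : ℤ) (x y : Q) => ((H.up.U ^ j) x)⁻¹ * y ∈ D)
    (fun x => by simp) (fun j x y h => by
      have h1 := hdat.sheet h (-j)
      have h2 := D.inv_mem h1
      rw [mul_inv_rev, inv_inv, ← U_zpow_add, add_neg_cancel, zpow_zero] at h2
      exact h2)
    (fun i j x y z h h' => by
      have h1 := hdat.sheet h j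
      have h2 := D.mul_mem h1 h'
      rw [← U_zpow_add, mul_assoc, mul_inv_cancel_left] at h2
      exact h2)
    (S.image (fun l => B.fin x l)) x (Finset.mem_image.2 ⟨[], (hS _).2 (by simp), rfl⟩) c W hW (by
      intro w hw w' hw' j hj1 hj2 h
      obtain ⟨l, hl, rfl⟩ := Finset.mem_image.1 hw
      obtain ⟨l', hl', rfl⟩ := Finset.mem_image.1 hw'
      obtain ⟨e, he, he'⟩ : ∃ e : ℤ, e = ((eps (B.fin x l) : ℤˣ) : ℤ) ∧ |e * j| = |j| := by
        refine ⟨_, rfl, ?_⟩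
        rcases Int.units_eq_one_or (eps (B.fin x l)) with h | h <;> simp [h]
      refine hsep (B.rev l ++ l') (e * j) ?_ (by rw [he']; exact hj1) (by rw [he']; exact hj2) ?_
      · have := (hS _).1 hl
        have := (hS _).1 hl'
        rw [List.length_append, SQ2.H35.length_rev]; omega
      · have h1 : ((H.up.U ^ j) (B.fin x l))⁻¹ * B.fin x l' ∈ D := h
        rw [H.U_zpow, ← he, mul_inv_rev, mul_assoc] at h1
        have e1 : (B.fin x l)⁻¹ * B.fin x l' = B.fin 1 (B.rev l ++ l') := by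
          rw [fin_append, SQ2.H35.fin_mul (B.fin 1 (B.rev l)), SQ2.H35.fin_mul x l, SQ2.H35.fin_mul x l',
            ← SQ2.H35.fin_inv]
          group
        rwa [e1] at h1)
  let F : Finset Q := (Set.toFinite {y : Q | ∃ x ∈ R, x⁻¹ * y ∈ D}).toFinset
  have hF : ∀ y, y ∈ F ↔ ∃ x ∈ R, x⁻¹ * y ∈ D := fun y => Set.Finite.mem_toFinset _
  refine ⟨F, ⟨?_, ?_⟩, (hF _).2 ⟨x, hR0, by simp⟩, ?_, ?_, ?_⟩
  · intro s hs δ hδ
    obtain ⟨y, hy, h⟩ := (hF s).1 hs
    exact (hF _).2 ⟨y, hy, by rw [← mul_assoc]; exact D.mul_mem h hδ⟩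
  · intro s hs t ht h
    obtain ⟨y, hy, h1⟩ := (hF s).1 hs
    obtain ⟨y', hy', h2⟩ := (hF _).1 h
    refine hRd y hy y' hy' t ht ?_
    have h3 := hdat.sheet h1 t
    have h4 := D.mul_mem h3 (D.inv_mem h2)
    rw [mul_inv_rev, inv_inv, mul_assoc, mul_inv_cancel_left] at h4
    exact h4
  · intro l hl
    obtain ⟨y, hy, j, hj, h⟩ := hRc _ (Finset.mem_image.2 ⟨l, (hS _).2 hl, rfl⟩)
    refine ⟨j, hj, (hF _).2 ⟨y, hy, ?_⟩⟩
    have := D.inv_mem h
    rwa [mul_inv_rev, inv_inv] at this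
  · intro s hs
    obtain ⟨y, hy, h⟩ := (hF s).1 hs
    obtain ⟨l, hl, rfl⟩ := Finset.mem_image.1 (hRM hy)
    exact ⟨l, (hS _).1 hl, 0, by rw [zpow_zero]; exact h⟩
  · refine (SQ2.H35.card_cosets D F R (fun s hs => (hF s).1 hs)).trans ?_
    refine Nat.mul_le_mul ?_ (Nat.le_of_dvd H.kpos H.card)
    exact (Finset.card_le_card hRM).trans (Finset.card_image_le.trans hc)

end

end Pool.Agent.Lib.MP_688fd0_co.SQ3.H94
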